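import Pool.Agent.Lib_helper54.DSF.ASM

/-!
# MP_ef641d_nt: the theorem of Deligne and Serre for `GL_n`

Let `π^τ`, `τ : K → ℂ`, be the conjugates of an automorphic representation of Artin type of `GL_n`
over `ℚ` with Satake polynomials `P p ∈ O_K[X]` for the primes `p` not dividing `N`; their traces
are the Hecke eigenvalues of bounded eigenforms of level `N`.  If there are corresponding Galois
representations modulo infinitely many primes `ℓ`, or `ℓ`-adic ones for one `ℓ` dividing `N` or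
for two primes `ℓ`, then there is a complex Galois representation with open kernel, of image of
order at most `2 M^(n^2)`, that corresponds to `π^τ` at every prime `p` not dividing `N`; here `M`
is the number of `x ∈ O_K` such that the mean of `|τ x|^2` over `τ` is at most `2 n^2`.
The Rankin-Selberg bound for `GL_n` is proved in `Lib_helper54/RS`, the density theorem of
Chebotarev in `Lib_helper54/DSF`.
-/

set_option autoImplicit false

namespace Pool.Agent.Results.MP_ef641d_nt.DeligneSerre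

open Polynomial NumberField Pool.Agent.RS.Main Pool.Agent.DS

theorem result {n N : ℕ} (hn : 2 ≤ n) (hN : N ≠ 0) (K : Type) [Field K] [NumberField K]
    (P : ℕ → (𝓞 K)[X]) (hP : ∀ p : ℕ, p.Prime → ¬ p ∣ N → (P p).Monic ∧ (P p).natDegree = n)
    (χ : (K →+* ℂ) → DirichletCharacter ℂ N)
    (φ : (K →+* ℂ) → Matrix (Fin n) (Fin n) ℝ → ℂ)
    (hφ : ∀ τ : K →+* ℂ, BoundedEigenform n N (χ τ) (φ τ)
      (fun p => τ (-(P p).coeff (n - 1) : 𝓞 K)))
    (h : (∀ B : ℕ, ∃ ℓ : ℕ, B < ℓ ∧ ℓ.Prime ∧ ModRep n N P ℓ) ∨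
      ∀ p : ℕ, p.Prime → ¬ p ∣ N → ∃ ℓ : ℕ, ℓ ≠ p ∧ AdicRep n N P ℓ) (τ : K →+* ℂ) :
    ∃ ρ : GQ →* GL (Fin n) ℂ, IsOpen (ρ.ker : Set GQ) ∧ Finite ρ.range ∧
      Nat.card ρ.range ≤ 2 * smallCard K (2 * n ^ 2) ^ n ^ 2 ∧
      ∀ p : ℕ, p.Prime → ¬ p ∣ N →
        AttachedAt ρ p ((P p).map (τ.comp (algebraMap (𝓞 K) K))) :=
  target hn hN K P hP χ φ hφ h τ

end Pool.Agent.Results.MP_ef641d_nt.DeligneSerre
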